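import Pool.Agent.Lib.MP_c8786f_co.WO.Main

/-!
A bridgeless finite multigraph (edge `e` oriented from `s e` to `t e`) with an even subgraph `C`
such that at most four components of the spanning subgraph `(V, C)` contain an odd number of
vertices of odd degree has a nowhere-zero 5-flow.  For cubic graphs the hypothesis says that the
weak oddness (in particular, the oddness) is at most four.
-/

namespace Pool.Agent.Lib.MP_c8786f_co.Retired.FourOddComponents

open Finset

theorem result {V E : Type} [Fintype V] [Fintype E] [DecidableEq V] (s t : E → V)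
    (hb : ∀ X : Finset V, (univ.filter fun e => ¬(s e ∈ X ↔ t e ∈ X)).card ≠ 1)
    (C : Finset E)
    (hC : ∀ v, Even ((C.filter fun e => s e = v).card + (C.filter fun e => t e = v).card))
    (h4 : {K : (SimpleGraph.fromRel fun u v => ∃ e ∈ C, s e = u ∧ t e = v).ConnectedComponent |
      Odd {v ∈ K.supp | Odd ((univ.filter fun e => s e = v).card +
        (univ.filter fun e => t e = v).card)}.ncard}.ncard ≤ 4) :
    ∃ f : E → ℤ, (∀ e, f e ≠ 0 ∧ |f e| ≤ 4) ∧
      ∀ v, ∑ e ∈ univ.filter (fun e => s e = v), f e = ∑ e ∈ univ.filter (fun e => t e = v), f e := by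
  classical
  obtain ⟨c, o, h1, h2⟩ := Pool.Agent.Lib.MP_c8786f_co.WO.exists_state s t C hC
  obtain ⟨f, h3, h5⟩ := (Pool.Agent.Lib.MP_c8786f_co.WO.flow_of_state hb h1 (h2.trans h4)).int
  refine ⟨f, h3, fun v => ?_⟩
  have := h5 v
  rwa [Pool.Agent.Lib.MP_c8786f_co.WO.bd_eq_filter, sub_eq_zero] at this

end Pool.Agent.Lib.MP_c8786f_co.Retired.FourOddComponents
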